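import Mathlib

namespace Pool.Agent.H.MP_1ebdda_an
open Filter Topology Finset

variable {X : Type} [NormedAddCommGroup X] [InnerProductSpace ℂ X]

lemma syn [CompleteSpace X] {e : ℕ → X} {C : ℝ} (hC : 0 ≤ C)
    (he : ∀ (y : X) (s : Finset ℕ), ∑ n ∈ s, ‖inner ℂ y (e n)‖ ^ 2 ≤ C * ‖y‖ ^ 2)
    {c : ℕ → ℂ} (hc : Summable fun n => ‖c n‖ ^ 2) : Summable fun n => c n • e n := by
  have key : ∀ t : Finset ℕ, ‖∑ n ∈ t, c n • e n‖ ^ 2 ≤ C * ∑ n ∈ t, ‖c n‖ ^ 2 := by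
    intro t
    set y := ∑ n ∈ t, c n • e n with hy
    have h1 : ‖y‖ ^ 2 ≤ ∑ n ∈ t, ‖c n‖ * ‖inner ℂ y (e n)‖ := by
      have : (inner ℂ y y : ℂ) = ∑ n ∈ t, c n * inner ℂ y (e n) := by
        conv_lhs => arg 3; rw [hy]
        rw [inner_sum]; simp only [inner_smul_right]
      have h2 : ‖y‖ ^ 2 = ‖(inner ℂ y y : ℂ)‖ := by
        rw [inner_self_eq_norm_sq_to_K]; simp
      rw [h2, this]
      exact (norm_sum_le _ _).trans (le_of_eq (by simp only [norm_mul]))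
    have h3 := sum_mul_sq_le_sq_mul_sq t (fun n => ‖c n‖) (fun n => ‖inner ℂ y (e n)‖)
    have h4 := he y t
    have h5 : 0 ≤ ∑ n ∈ t, ‖c n‖ ^ 2 := by positivity
    rcases (sq_nonneg ‖y‖).eq_or_lt with h | h
    · rw [← h]; positivity
    · have h6 : (‖y‖ ^ 2) ^ 2 ≤ (∑ n ∈ t, ‖c n‖ ^ 2) * (C * ‖y‖ ^ 2) :=
        (pow_le_pow_left₀ h.le h1 2).trans (h3.trans (mul_le_mul_of_nonneg_left h4 h5))
      nlinarith
  rw [summable_iff_vanishing_norm] at hc ⊢
  intro ε hε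
  obtain ⟨s, hs⟩ := hc (ε ^ 2 / (C + 1)) (by positivity)
  refine ⟨s, fun t ht => ?_⟩
  have h1 := hs t ht
  have h5 : 0 ≤ ∑ n ∈ t, ‖c n‖ ^ 2 := by positivity
  rw [Real.norm_of_nonneg h5, lt_div_iff₀ (by positivity)] at h1
  have := key t
  exact lt_of_pow_lt_pow_left₀ 2 hε.le (by nlinarith)

lemma step1 {e : ℕ → X} {l : ℕ → X →L[ℂ] ℂ} (h : ∀ m n, l m (e n) = if m = n then 1 else 0)
    {f w : X} (hw : HasSum (fun n => l n f • e n) w) :
    (∀ m, l m (f - w) = 0) ∧ ∀ φ : X →L[ℂ] ℂ, (∀ n, φ (e n) = 0) → φ w = 0 := by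
  constructor
  · intro m
    have h1 := hw.mapL (l m)
    simp only [map_smul, h, smul_eq_mul, mul_ite, mul_one, mul_zero] at h1
    have h2 : HasSum (fun n => if m = n then l n f else 0) (l m f) := by
      convert hasSum_ite_eq m (l m f) using 2 with n
      by_cases hn : m = n
      · simp [hn]
      · simp [hn, Ne.symm hn]
    rw [map_sub, h1.unique h2, sub_self]
  · intro φ hφ
    have h1 := hw.mapL φ
    simp only [map_smul, hφ, smul_zero] at h1
    exact h1.unique hasSum_zero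

lemma step2 {e : ℕ → X} {l : ℕ → X →L[ℂ] ℂ} {ev : ℕ → ℂ} (hi : Function.Injective ev) {z : ℂ}
    {f : X} (hf : ∀ n, ev n ≠ z → l n f = 0) {W : Submodule ℂ X} (hW : ∀ n, ev n = z → e n ∈ W) :
    ∃ w ∈ W, HasSum (fun n => l n f • e n) w := by
  by_cases h : ∃ n, ev n = z
  · obtain ⟨n, hn⟩ := h
    refine ⟨l n f • e n, W.smul_mem _ (hW n hn), hasSum_single n fun m hm => ?_⟩
    rw [hf m fun h => hm (hi (h.trans hn.symm)), zero_smul]
  · refine ⟨0, W.zero_mem, ?_⟩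
    have : ∀ n, l n f • e n = 0 := fun n => by rw [hf n fun h' => h ⟨n, h'⟩, zero_smul]
    simp only [this]; exact hasSum_zero

lemma coef {ψ : ℕ → X} {d : ℕ → ℂ}
    (h : Tendsto (fun N => ∑ j ∈ range N, d j • ψ j) atTop (𝓝 0)) (φ : X →L[ℂ] ℂ) (i : ℕ)
    (h0 : ∀ j, j ≠ i → d j * φ (ψ j) = 0) (h1 : φ (ψ i) = 1) : d i = 0 := by
  have h2 := (φ.continuous.tendsto 0).comp h
  rw [map_zero] at h2
  refine tendsto_nhds_unique (tendsto_const_nhds.congr' ?_) h2
  filter_upwards [eventually_gt_atTop i] with N hN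
  simp only [Function.comp, _root_.map_sum, map_smul, smul_eq_mul]
  rw [sum_eq_single_of_mem i (mem_range.2 hN) fun j _ hj => h0 j hj, h1, mul_one]

theorem abs3 {e1 e2 e3 : ℕ → X} {l1 l2 l3 : ℕ → X →L[ℂ] ℂ}
    (s1 : ∀ f, Summable fun n => l1 n f • e1 n) (s2 : ∀ f, Summable fun n => l2 n f • e2 n)
    (s3 : ∀ f, Summable fun n => l3 n f • e3 n)
    (h11 : ∀ m n, l1 m (e1 n) = if m = n then 1 else 0) (h12 : ∀ m n, l1 m (e2 n) = 0)
    (h13 : ∀ m n, l1 m (e3 n) = 0) (h22 : ∀ m n, l2 m (e2 n) = if m = n then 1 else 0)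
    (h23 : ∀ m n, l2 m (e3 n) = 0) (h33 : ∀ m n, l3 m (e3 n) = if m = n then 1 else 0)
    (tot : ∀ f, (∀ n, l1 n f = 0) → (∀ n, l2 n f = 0) → (∀ n, l3 n f = 0) → f = 0)
    (R : ℂ → Submodule ℂ X) {v1 v2 v3 : ℕ → ℂ} (i1 : Function.Injective v1)
    (i2 : Function.Injective v2) (i3 : Function.Injective v3)
    (m1 : ∀ n, e1 n ∈ R (v1 n)) (m2 : ∀ n, e2 n ∈ R (v2 n)) (m3 : ∀ n, e3 n ∈ R (v3 n))
    (k1 : ∀ z, ∀ f ∈ R z, ∀ n, v1 n ≠ z → l1 n f = 0)
    (k2 : ∀ z, ∀ f ∈ R z, ∀ n, v2 n ≠ z → l2 n f = 0)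
    (k3 : ∀ z, ∀ f ∈ R z, (∀ n, l1 n f = 0) → (∀ n, l2 n f = 0) → ∀ n, v3 n ≠ z → l3 n f = 0) :
    ∃ (ψ : ℕ → X) (ev : ℕ → ℂ),
      (∀ z, LinearIndependent ℂ (fun j : {j // ev j = z} => ψ j) ∧
        Submodule.span ℂ (ψ '' {j | ev j = z}) = R z) ∧
      (∀ f, ∃! c : ℕ → ℂ, Tendsto (fun N => ∑ j ∈ range N, c j • ψ j) atTop (𝓝 f)) ∧
      ∀ f, ∃ c : ℕ → ℂ, HasSum (fun j => c j • ψ j) f := by
  let σ : ℕ ≃ ℕ ⊕ ℕ ⊕ ℕ := (Denumerable.eqv _).symm
  let E : ℕ ⊕ ℕ ⊕ ℕ → X := Sum.elim e1 (Sum.elim e2 e3)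
  let V : ℕ ⊕ ℕ ⊕ ℕ → ℂ := Sum.elim v1 (Sum.elim v2 v3)
  have dec : ∀ f w1 w2 w3, HasSum (fun n => l1 n f • e1 n) w1 →
      HasSum (fun n => l2 n (f - w1) • e2 n) w2 →
      HasSum (fun n => l3 n (f - w1 - w2) • e3 n) w3 → f = w1 + (w2 + w3) := by
    intro f w1 w2 w3 a1 a2 a3
    have b1 := step1 h11 a1
    have b2 := step1 h22 a2
    have b3 := step1 h33 a3
    have := tot (f - w1 - w2 - w3)
      (fun n => by rw [map_sub, map_sub, b1.1, b2.2 _ (h12 n), b3.2 _ (h13 n)]; simp)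
      (fun n => by rw [map_sub, b2.1, b3.2 _ (h23 n)]; simp) b3.1
    rw [sub_sub, sub_sub, sub_eq_zero] at this
    exact this
  have ex : ∀ f, ∃ c : ℕ → ℂ, HasSum (fun j => c j • E (σ j)) f := by
    intro f
    obtain ⟨w1, a1⟩ := s1 f
    obtain ⟨w2, a2⟩ := s2 (f - w1)
    obtain ⟨w3, a3⟩ := s3 (f - w1 - w2)
    let c : ℕ ⊕ ℕ ⊕ ℕ → ℂ := Sum.elim (fun n => l1 n f)
      (Sum.elim (fun n => l2 n (f - w1)) (fun n => l3 n (f - w1 - w2)))
    refine ⟨c ∘ σ, σ.hasSum_iff (f := fun j => c j • E j) |>.2 ?_⟩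
    rw [dec f w1 w2 w3 a1 a2 a3]
    exact HasSum.sum a1 (HasSum.sum a2 a3)
  have un : ∀ d : ℕ → ℂ, Tendsto (fun N => ∑ j ∈ range N, d j • E (σ j)) atTop (𝓝 0) →
      d = 0 := by
    intro d hd
    have ne : ∀ {j t}, j ≠ σ.symm t → σ j ≠ t := fun h h' => h (by rw [← h']; simp)
    have a1 : ∀ n, d (σ.symm (.inl n)) = 0 := fun n =>
      coef hd (l1 n) _ (fun j hj => by
        have := ne hj
        rcases h : σ j with m | m | m
        · rw [h] at this
          simp [E, h11, show n ≠ m from fun h => this (by rw [h])]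
        · simp [E, h12]
        · simp [E, h13]) (by simp [E, h11])
    have a2 : ∀ n, d (σ.symm (.inr (.inl n))) = 0 := fun n =>
      coef hd (l2 n) _ (fun j hj => by
        have := ne hj
        rcases h : σ j with m | m | m
        · rw [show j = σ.symm (.inl m) by rw [← h]; simp, a1, zero_mul]
        · rw [h] at this
          simp [E, h22, show n ≠ m from fun h => this (by rw [h])]
        · simp [E, h23]) (by simp [E, h22])
    have a3 : ∀ n, d (σ.symm (.inr (.inr n))) = 0 := fun n =>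
      coef hd (l3 n) _ (fun j hj => by
        have := ne hj
        rcases h : σ j with m | m | m
        · rw [show j = σ.symm (.inl m) by rw [← h]; simp, a1, zero_mul]
        · rw [show j = σ.symm (.inr (.inl m)) by rw [← h]; simp, a2, zero_mul]
        · rw [h] at this
          simp [E, h33, show n ≠ m from fun h => this (by rw [h])]) (by simp [E, h33])
    funext j
    rcases h : σ j with m | m | m
    · rw [show j = σ.symm (.inl m) by rw [← h]; simp, a1]; rfl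
    · rw [show j = σ.symm (.inr (.inl m)) by rw [← h]; simp, a2]; rfl
    · rw [show j = σ.symm (.inr (.inr m)) by rw [← h]; simp, a3]; rfl
  have li : LinearIndependent ℂ (fun j => E (σ j)) := by
    rw [linearIndependent_iff]
    intro l hl
    have := un l (tendsto_const_nhds.congr' ?_)
    · ext j; exact congrFun this j
    · filter_upwards [eventually_gt_atTop (l.support.sup id)] with N hN
      rw [← hl, Finsupp.linearCombination_apply, Finsupp.sum_of_support_subset (s := range N)]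
      · intro j hj
        exact mem_range.2 ((le_sup (f := id) hj).trans_lt hN)
      · simp
  refine ⟨fun j => E (σ j), fun j => V (σ j), fun z => ⟨li.comp _ Subtype.val_injective, ?_⟩,
    fun f => ?_, ex⟩
  · apply le_antisymm
    · rw [Submodule.span_le]
      rintro _ ⟨j, hj, rfl⟩
      have hj' : V (σ j) = z := hj
      rw [← hj']
      show E (σ j) ∈ R (V (σ j))
      rcases σ j with m | m | m
      exacts [m1 m, m2 m, m3 m]
    · intro f hf
      set W := Submodule.span ℂ ((fun j => E (σ j)) '' {j | V (σ j) = z})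
      have hW : ∀ t, V t = z → E t ∈ W ⊓ R z := fun t ht => by
        refine ⟨Submodule.subset_span ⟨σ.symm t, by simpa using ht, by simp⟩, ?_⟩
        rw [← ht]
        rcases t with m | m | m
        exacts [m1 m, m2 m, m3 m]
      obtain ⟨w1, b1, a1⟩ := step2 (e := e1) i1 (k1 z f hf) fun n hn => hW (.inl n) hn
      have f1 := (R z).sub_mem hf b1.2
      obtain ⟨w2, b2, a2⟩ := step2 (e := e2) i2 (k2 z _ f1) fun n hn => hW (.inr (.inl n)) hn
      have f2 := (R z).sub_mem f1 b2.2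
      obtain ⟨w3, b3, a3⟩ := step2 (e := e3) i3 (k3 z _ f2
        (fun n => by rw [map_sub, (step1 h11 a1).1, (step1 h22 a2).2 _ (h12 n), sub_zero])
        (step1 h22 a2).1) fun n hn => hW (.inr (.inr n)) hn
      rw [dec f w1 w2 w3 a1 a2 a3]
      exact W.add_mem b1.1 (W.add_mem b2.1 b3.1)
  · obtain ⟨c, hc⟩ := ex f
    refine ⟨c, hc.tendsto_sum_nat, fun d hd => sub_eq_zero.1 (un _ ?_)⟩
    have := hd.sub hc.tendsto_sum_nat
    rw [sub_self] at this
    simpa only [Pi.sub_apply, sub_smul, sum_sub_distrib] using this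

end Pool.Agent.H.MP_1ebdda_an
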