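import Pool.Agent.H.MP_1ebdda_an.A

namespace Pool.Agent.H.MP_1ebdda_an
open Filter Topology Set Real Complex
open MeasureTheory hiding integral_const_mul integral_const integral_add integral_sub
open scoped ComplexConjugate

noncomputable abbrev mu : Measure ℝ := volume.restrict (Ioo (-(π / 2)) (π / 2))
noncomputable abbrev L2 := Lp ℂ 2 mu

def Bd (h : ℝ → ℂ) (M : ℝ) : Prop := Measurable h ∧ ∀ x ∈ Ioo (-(π / 2)) (π / 2), ‖h x‖ ≤ M

lemma Bd.mul {h f : ℝ → ℂ} {M : ℝ} (hh : Bd h M) (hf : MemLp f 2 mu) :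
    MemLp (fun x => h x * f x) 2 mu := by
  refine hf.of_le_mul (c := M) (hh.1.aestronglyMeasurable.mul hf.1) ?_
  filter_upwards [ae_restrict_mem measurableSet_Ioo] with x hx
  rw [norm_mul]; exact mul_le_mul_of_nonneg_right (hh.2 x hx) (norm_nonneg _)

lemma Bd.mem {h : ℝ → ℂ} {M : ℝ} (hh : Bd h M) : MemLp h 2 mu := by
  simpa using hh.mul (memLp_const (1 : ℂ))

def Bes (w : ℕ → ℝ → ℂ) : Prop :=
  (∀ n, MemLp (w n) 2 mu) ∧ ∃ C, 0 ≤ C ∧ ∀ f, MemLp f 2 mu → ∀ s : Finset ℕ,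
    ∑ n ∈ s, ‖∫ x, w n x * f x ∂mu‖ ^ 2 ≤ C * ∫ x, ‖f x‖ ^ 2 ∂mu

lemma Bes.mul {w : ℕ → ℝ → ℂ} (hw : Bes w) {h : ℝ → ℂ} {M : ℝ} (hh : Bd h M) :
    Bes fun n x => h x * w n x := by
  obtain ⟨h1, C, hC, h2⟩ := hw
  refine ⟨fun n => hh.mul (h1 n), C * M ^ 2, by positivity, fun f hf s => ?_⟩
  have h3 := h2 _ (hh.mul hf) s
  have h4 : ∫ x, ‖h x * f x‖ ^ 2 ∂mu ≤ M ^ 2 * ∫ x, ‖f x‖ ^ 2 ∂mu := by
    rw [← MeasureTheory.integral_const_mul]
    refine integral_mono_ae ((hh.mul hf).integrable_norm_pow two_ne_zero)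
      ((hf.integrable_norm_pow two_ne_zero).const_mul _) ?_
    filter_upwards [ae_restrict_mem measurableSet_Ioo] with x hx
    rw [norm_mul, mul_pow]
    gcongr; exact hh.2 x hx
  simp only [show ∀ n x, h x * w n x * f x = w n x * (h x * f x) from fun _ _ => by ring]
  nlinarith [mul_le_mul_of_nonneg_left h4 hC]

lemma Bes.smul {w : ℕ → ℝ → ℂ} (hw : Bes w) {b : ℕ → ℂ} {M : ℝ} (hb : ∀ n, ‖b n‖ ≤ M) :
    Bes fun n x => b n * w n x := by
  obtain ⟨h1, C, hC, h2⟩ := hw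
  refine ⟨fun n => (h1 n).const_mul _, M ^ 2 * C, by positivity, fun f hf s => ?_⟩
  simp only [mul_assoc, MeasureTheory.integral_const_mul, norm_mul, mul_pow]
  refine le_trans ?_ (mul_le_mul_of_nonneg_left (h2 f hf s) (sq_nonneg M))
  rw [Finset.mul_sum]
  gcongr with n; exact hb n

lemma Bes.add {w w' : ℕ → ℝ → ℂ} (hw : Bes w) (hw' : Bes w') :
    Bes fun n x => w n x + w' n x := by
  obtain ⟨h1, C, hC, h2⟩ := hw
  obtain ⟨h1', C', hC', h2'⟩ := hw'
  refine ⟨fun n => (h1 n).add (h1' n), 2 * C + 2 * C', by positivity, fun f hf s => ?_⟩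
  have : ∀ n, ‖∫ x, (w n x + w' n x) * f x ∂mu‖ ^ 2 ≤
      2 * ‖∫ x, w n x * f x ∂mu‖ ^ 2 + 2 * ‖∫ x, w' n x * f x ∂mu‖ ^ 2 := by
    intro n
    simp only [add_mul]
    rw [MeasureTheory.integral_add (f := fun x => w n x * f x) (g := fun x => w' n x * f x)
      ((h1 n).integrable_mul hf) ((h1' n).integrable_mul hf)]
    have := norm_add_le (∫ x, w n x * f x ∂mu) (∫ x, w' n x * f x ∂mu)
    nlinarith [norm_nonneg (∫ x, w n x * f x ∂mu + ∫ x, w' n x * f x ∂mu),
      sq_nonneg (‖∫ x, w n x * f x ∂mu‖ - ‖∫ x, w' n x * f x ∂mu‖)]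
  refine (Finset.sum_le_sum fun n _ => this n).trans ?_
  rw [Finset.sum_add_distrib, ← Finset.mul_sum, ← Finset.mul_sum]
  nlinarith [h2 f hf s, h2' f hf s]

lemma fc {L : ℝ} (hL : -L < L) (F : ℝ → ℂ) (k : ℤ) : fourierCoeffOn hL F k =
    ((1 / (2 * L) : ℝ) : ℂ) * ∫ x in -L..L, cexp (((-k * π / L * x : ℝ) : ℂ) * I) * F x := by
  have : 0 < L := by linarith
  rw [fourierCoeffOn_eq_integral, real_smul]
  congr 2
  · congr 1; ring
  · funext x
    rw [fourier_coe_apply, smul_eq_mul]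
    congr 2
    have : (L : ℂ) ≠ 0 := by exact_mod_cast this.ne'
    push_cast
    rw [show (L : ℂ) - -L = 2 * L by ring]; field_simp

lemma bes_exp {ω : ℝ} (hω : 0 < ω) {z : ℕ → ℤ} (hz : Function.Injective z) :
    Bes fun n x => cexp (((ω * z n * x : ℝ) : ℂ) * I) := by
  obtain ⟨M, hM⟩ := exists_nat_gt ω
  have hM0 : (0 : ℝ) < M := hω.trans hM
  set L := M * π / ω with hLd
  have hp := pi_pos
  have hL : π / 2 ≤ L := by rw [hLd, le_div_iff₀ hω]; nlinarith
  have hL' : -L < L := by linarith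
  refine ⟨fun n => Bd.mem (M := 1) ⟨by fun_prop, fun x _ => (norm_exp_ofReal_mul_I _).le⟩,
    2 * L, by linarith, fun f hf s => ?_⟩
  set F := (Ioo (-(π / 2)) (π / 2)).indicator f
  have sub : Ioo (-(π / 2)) (π / 2) ⊆ Ioc (-L) L := fun x hx => ⟨by linarith [hx.1], by linarith [hx.2]⟩
  have tr : ∀ {E : Type} [NormedAddCommGroup E] [NormedSpace ℝ E] (g : ℝ → E),
      ∫ x in -L..L, (Ioo (-(π / 2)) (π / 2)).indicator g x = ∫ x, g x ∂mu := by
    intro E _ _ g
    rw [intervalIntegral.integral_of_le hL'.le, integral_indicator measurableSet_Ioo,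
      Measure.restrict_restrict measurableSet_Ioo, inter_eq_left.2 sub]
  have hF : MemLp F 2 (volume.restrict (Ioc (-L) L)) :=
    ((memLp_indicator_iff_restrict measurableSet_Ioo).2 hf).restrict _
  have h1 := hasSum_sq_fourierCoeffOn hL' hF
  have hi : Function.Injective fun n => -(z n * M) := fun a b h => by
    have : (M : ℤ) ≠ 0 := by exact_mod_cast (show M ≠ 0 by exact_mod_cast hM0.ne')
    exact hz (mul_right_cancel₀ this (neg_injective h))
  have h2 := sum_le_hasSum (s.map ⟨_, hi⟩) (fun _ _ => sq_nonneg _) h1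
  rw [Finset.sum_map] at h2
  have e1 : ∫ x in -L..L, ‖F x‖ ^ 2 = ∫ x, ‖f x‖ ^ 2 ∂mu := by
    rw [← tr]; congr 1; funext x
    by_cases hx : x ∈ Ioo (-(π / 2)) (π / 2) <;> simp [F, hx]
  have e2 : ∀ n, fourierCoeffOn hL' F (-(z n * M)) = ((1 / (2 * L) : ℝ) : ℂ) *
      ∫ x, cexp (((ω * z n * x : ℝ) : ℂ) * I) * f x ∂mu := by
    intro n
    rw [fc, ← tr]; congr 2; funext x
    have : -((-(z n * M) : ℤ) : ℝ) * π / L * x = ω * z n * x := by
      rw [hLd]; push_cast; field_simp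
    rw [this]
    by_cases hx : x ∈ Ioo (-(π / 2)) (π / 2) <;> simp [F, hx]
  have hL0 : 0 < L := by linarith
  simp only [Function.Embedding.coeFn_mk, e1, e2, norm_mul, mul_pow, ← Finset.mul_sum,
    norm_real, smul_eq_mul] at h2
  rw [Real.norm_of_nonneg (by positivity), show L - -L = 2 * L by ring] at h2
  have := mul_le_mul_of_nonneg_left h2 (sq_nonneg (2 * L))
  generalize ∑ i ∈ s, ‖∫ x, cexp (((ω * z i * x : ℝ) : ℂ) * I) * f x ∂mu‖ ^ 2 = S at this ⊢
  refine le_trans (le_of_eq ?_) (this.trans (le_of_eq ?_)) <;> field_simp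

lemma bes_sin {ω : ℝ} (hω : 0 < ω) (j : ℕ) (θ : ℕ → ℝ) :
    Bes fun n x => ((Real.sin (ω * (n + j : ℕ) * x + θ n) : ℝ) : ℂ) := by
  have h1 := (bes_exp hω (z := fun n => -((n + j : ℕ) : ℤ)) (fun a b h => by
    simpa using h)).smul (b := fun n => cexp (((-θ n : ℝ) : ℂ) * I) * I / 2) (M := 1 / 2)
    (fun n => by rw [norm_div, norm_mul, norm_exp_ofReal_mul_I]; simp)
  have h2 := (bes_exp hω (z := fun n => ((n + j : ℕ) : ℤ)) (fun a b h => by
    simpa using h)).smul (b := fun n => -(cexp (((θ n : ℝ) : ℂ) * I) * I / 2)) (M := 1 / 2)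
    (fun n => by rw [norm_neg, norm_div, norm_mul, norm_exp_ofReal_mul_I]; simp)
  convert h1.add h2 using 3 with n x
  rw [ofReal_sin, Complex.sin]
  push_cast
  rw [neg_add, add_mul, add_mul, Complex.exp_add, Complex.exp_add]
  ring_nf

lemma zero_ae {L : ℝ} (hL : 0 < L) {F : ℝ → ℂ} (hF : MemLp F 2 (volume.restrict (Ioc (-L) L)))
    (h : ∀ k : ℤ, ∫ x in -L..L, cexp (((-k * π / L * x : ℝ) : ℂ) * I) * F x = 0) :
    ∀ᵐ x, x ∈ Ioo (-L) L → F x = 0 := by
  have hL' : -L < L := by linarith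
  have h1 := hasSum_sq_fourierCoeffOn hL' hF
  simp only [fc, h, mul_zero, norm_zero, zero_pow two_ne_zero] at h1
  have h2 := h1.unique hasSum_zero
  rw [smul_eq_mul, mul_eq_zero, intervalIntegral.integral_of_le hL'.le,
    integral_eq_zero_iff_of_nonneg (fun _ => sq_nonneg _) (hF.integrable_norm_pow two_ne_zero),
    EventuallyEq, ae_restrict_iff' measurableSet_Ioc] at h2
  rcases h2 with h2 | h2
  · exact absurd h2 (inv_ne_zero (by linarith))
  · filter_upwards [h2] with x hx h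
    simpa using hx (Ioo_subset_Ioc_self h)

lemma sym {L : ℝ} (hL : 0 < L) {F : ℝ → ℂ} (hF : MemLp F 2 (volume.restrict (Ioo (-L) L)))
    (s : ℂ) (h : ∀ k : ℤ, ∫ x in -L..L, ((1 + s) * (Real.cos (k * π / L * x) : ℝ) +
      (s - 1) * I * (Real.sin (k * π / L * x) : ℝ)) * F x = 0) :
    ∀ᵐ x, x ∈ Ioo (-L) L → F x + s * F (-x) = 0 := by
  have hL' : -L ≤ L := by linarith
  have hG : MemLp (fun x => F (-x)) 2 (volume.restrict (Ioo (-L) L)) := by
    have := (Measure.measurePreserving_neg (volume : Measure ℝ)).restrict_preimage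
      (s := Ioo (-L) L) measurableSet_Ioo
    rw [show Neg.neg ⁻¹' Ioo (-L) L = Ioo (-L) L by
      ext x; simp only [mem_preimage, mem_Ioo]; constructor <;> intro h <;> constructor <;>
        linarith [h.1, h.2]] at this
    exact hF.comp_measurePreserving this
  rw [Measure.restrict_congr_set Ioo_ae_eq_Ioc] at hF hG
  have iF : IntervalIntegrable F volume (-L) L :=
    (intervalIntegrable_iff_integrableOn_Ioc_of_le hL').2 (hF.integrable one_le_two)
  have iG : IntervalIntegrable (fun x => F (-x)) volume (-L) L :=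
    (intervalIntegrable_iff_integrableOn_Ioc_of_le hL').2 (hG.integrable one_le_two)
  refine zero_ae hL (hF.add (hG.const_mul s)) fun k => ?_
  have e := intervalIntegral.integral_comp_neg (a := -L) (b := L)
    (fun x => s * cexp (((k * π / L * x : ℝ) : ℂ) * I) * F x)
  rw [neg_neg] at e
  simp only [mul_add, ← mul_assoc]
  rw [intervalIntegral.integral_add (iF.continuousOn_mul (by fun_prop))
    (iG.continuousOn_mul (by fun_prop)), ← h k]
  rw [show (∫ x in -L..L, cexp (((-k * π / L * x : ℝ) : ℂ) * I) * s * F (-x)) = _ from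
    Eq.trans (by congr 1; funext x; push_cast; ring_nf) e,
    ← intervalIntegral.integral_add (iF.continuousOn_mul (by fun_prop))
    (iF.continuousOn_mul (by fun_prop))]
  congr 1; funext x
  rw [show -(k : ℝ) * π / L * x = -(k * π / L * x) by ring, exp_mul_I, exp_mul_I, ← ofReal_cos,
    ← ofReal_cos, ← ofReal_sin, ← ofReal_sin, Real.cos_neg, Real.sin_neg]
  push_cast; ring

lemma sym_sin {L : ℝ} (hL : 0 < L) {F : ℝ → ℂ} (hF : MemLp F 2 (volume.restrict (Ioo (-L) L)))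
    (h : ∀ n : ℕ, ∫ x in -L..L, (Real.sin (π / L * (n + 1 : ℕ) * x) : ℝ) * F x = 0) :
    ∀ᵐ x, x ∈ Ioo (-L) L → F x = F (-x) := by
  have := sym hL hF (-1) fun k => by
    simp only [add_neg_cancel, zero_mul, zero_add, mul_assoc _ _ (F _),
      intervalIntegral.integral_const_mul]
    rcases k with (_ | n) | n
    · simp
    · rw [← mul_zero ((-1 - 1) * I), ← h n]; congr 2; funext x; congr 3
      rw [Int.ofNat_eq_natCast, Int.cast_natCast]; ring
    · rw [← mul_zero ((-1 - 1) * I), ← neg_zero, ← h n, ← intervalIntegral.integral_neg]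
      congr 2; funext x
      rw [← neg_mul, ← ofReal_neg, ← Real.sin_neg]; congr 3; simp [Int.negSucc_eq]; ring
  filter_upwards [this] with x hx h
  linear_combination hx h

lemma sym_cos {L : ℝ} (hL : 0 < L) {F : ℝ → ℂ} (hF : MemLp F 2 (volume.restrict (Ioo (-L) L)))
    (h : ∀ n : ℕ, ∫ x in -L..L, (Real.cos (π / L * n * x) : ℝ) * F x = 0) :
    ∀ᵐ x, x ∈ Ioo (-L) L → F x = -F (-x) := by
  have := sym hL hF 1 fun k => by
    simp only [sub_self, zero_mul, add_zero, mul_assoc _ _ (F _),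
      intervalIntegral.integral_const_mul]
    rw [← mul_zero (1 + 1 : ℂ), ← h k.natAbs]; congr 2; funext x
    congr 2
    rw [← Real.cos_abs, ← Real.cos_abs (π / L * _ * x), Nat.cast_natAbs]
    congr 1
    simp only [abs_mul, abs_div, Int.cast_abs, abs_abs]; ring
  filter_upwards [this] with x hx h
  linear_combination hx h

end Pool.Agent.H.MP_1ebdda_an
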