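import Pool.Agent.H.MP_1ebdda_an.B

namespace Pool.Agent.H.MP_1ebdda_an
open Filter Topology Set Real Complex
open MeasureTheory hiding integral_const_mul integral_const integral_add integral_sub
open scoped ComplexConjugate

def Gr (a : ℝ) (ψ g : L2) : Prop :=
  ∃ u v : ℝ → ℂ, (∀ x ∈ Icc (-(π / 2)) (π / 2), u x = u 0 + ∫ t in (0 : ℝ)..x, v t) ∧
    (∀ x ∈ Icc (-(π / 2)) (π / 2), v x = v 0 - ∫ t in (0 : ℝ)..x, g t) ∧
    (∀ᵐ x ∂mu, ψ x = u x) ∧ u (-(π / 2)) = u (π / 2 * a) ∧ u (π / 2 * a) = u (π / 2)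

def Ker (a : ℝ) (z : ℂ) : ℕ → Set L2
  | 0 => {0}
  | k + 1 => {ψ | ∃ g, Gr a ψ g ∧ g - z • ψ ∈ Ker a z k}

abbrev II : Set ℝ := Icc (-(π / 2)) (π / 2)

def Gr' (a : ℝ) (ψ g : L2) (u v : ℝ → ℂ) : Prop :=
  (∀ x, HasDerivAt u (v x) x) ∧ Continuous v ∧
    (∀ x ∈ II, ∀ y ∈ II, ∫ t in x..y, g t = v x - v y) ∧
    (∀ᵐ x ∂mu, ψ x = u x) ∧ u (-(π / 2)) = u (π / 2 * a) ∧ u (π / 2 * a) = u (π / 2)

lemma z_mem : (0 : ℝ) ∈ II := ⟨by linarith [pi_pos], by linarith [pi_pos]⟩
lemma l_mem : -(π / 2) ∈ II := ⟨le_rfl, by linarith [pi_pos]⟩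
lemma r_mem : π / 2 ∈ II := ⟨by linarith [pi_pos], le_rfl⟩

lemma icongr {f g : ℝ → ℂ} (h : ∀ᵐ x ∂mu, f x = g x) {x y : ℝ} (hx : x ∈ II) (hy : y ∈ II) :
    ∫ t in x..y, f t = ∫ t in x..y, g t := by
  rw [mu, Measure.restrict_congr_set Ioo_ae_eq_Icc, ae_restrict_iff' measurableSet_Icc] at h
  refine intervalIntegral.integral_congr_ae ?_
  filter_upwards [h] with t ht h'
  exact ht (uIcc_subset_Icc hx hy (uIoc_subset_uIcc h'))

lemma ii (f : L2) {x y : ℝ} (hx : x ∈ II) (hy : y ∈ II) : IntervalIntegrable f volume x y := by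
  have : IntegrableOn f (Ioo (-(π / 2)) (π / 2)) := (Lp.memLp f).integrable one_le_two
  rw [← integrableOn_Icc_iff_integrableOn_Ioo] at this
  exact (this.mono_set (uIcc_subset_Icc hx hy)).intervalIntegrable

lemma gr_iff {a : ℝ} (ha : π / 2 * a ∈ II) {ψ g : L2} : Gr a ψ g ↔ ∃ u v, Gr' a ψ g u v := by
  constructor
  · rintro ⟨u, v, h1, h2, h3, h4, h5⟩
    set G := (Ioo (-(π / 2)) (π / 2)).indicator g
    have hG : Integrable G := (integrable_indicator_iff measurableSet_Ioo).2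
      ((Lp.memLp g).integrable one_le_two)
    have e : ∀ᵐ x ∂mu, G x = g x := by
      filter_upwards [ae_restrict_mem measurableSet_Ioo] with x hx using indicator_of_mem hx _
    set v' : ℝ → ℂ := fun x => v 0 - ∫ t in (0 : ℝ)..x, G t
    have cv : Continuous v' := continuous_const.sub
      (intervalIntegral.continuous_primitive (fun _ _ => hG.intervalIntegrable) 0)
    have ev : ∀ x ∈ II, v' x = v x := fun x hx => by
      rw [h2 x hx, ← icongr e z_mem hx]
    have eu : ∀ x ∈ II, u 0 + ∫ t in (0 : ℝ)..x, v' t = u x := fun x hx => by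
      rw [h1 x hx, intervalIntegral.integral_congr fun t ht => ev t (uIcc_subset_Icc z_mem hx ht)]
    refine ⟨fun x => u 0 + ∫ t in (0 : ℝ)..x, v' t, v', fun x => ?_, cv, fun x hx y hy => ?_, ?_,
      ?_, ?_⟩
    · exact (cv.integral_hasStrictDerivAt 0 x).hasDerivAt.const_add _
    · rw [← icongr e hx hy, ← intervalIntegral.integral_interval_sub_left
        (a := 0) hG.intervalIntegrable hG.intervalIntegrable]
      simp only [v']; ring
    · filter_upwards [h3, ae_restrict_mem measurableSet_Ioo] with x h hx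
      rw [h, eu x (Ioo_subset_Icc_self hx)]
    · simp only [eu _ l_mem, eu _ ha, h4]
    · simp only [eu _ r_mem, eu _ ha, h5]
  · rintro ⟨u, v, h1, h2, h3, h4⟩
    refine ⟨u, v, fun x _ => ?_, fun x hx => ?_, h4⟩
    · rw [intervalIntegral.integral_eq_sub_of_hasDerivAt (fun t _ => h1 t)
        (h2.intervalIntegrable _ _)]; ring
    · rw [h3 0 z_mem x hx]; ring

lemma Gr.lin {a : ℝ} (ha : π / 2 * a ∈ II) {ψ g ψ' g' : L2} (h : Gr a ψ g) (h' : Gr a ψ' g')
    (c : ℂ) : Gr a (c • ψ + ψ') (c • g + g') := by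
  rw [gr_iff ha] at *
  obtain ⟨u, v, h1, h2, h3, h4, h5, h6⟩ := h
  obtain ⟨u', v', h1', h2', h3', h4', h5', h6'⟩ := h'
  refine ⟨fun x => c * u x + u' x, fun x => c * v x + v' x,
    fun x => ((h1 x).const_mul c).add (h1' x), by fun_prop, fun x hx y hy => ?_, ?_,
    by simp only [h5, h5'], by simp only [h6, h6']⟩
  · rw [icongr (g := fun t => c * g t + g' t) (by
      filter_upwards [Lp.coeFn_add (c • g) g', Lp.coeFn_smul c g] with t a1 a2
      rw [a1, Pi.add_apply, a2]; rfl) hx hy,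
      intervalIntegral.integral_add ((ii g hx hy).const_mul c) (ii g' hx hy),
      intervalIntegral.integral_const_mul, h3 x hx y hy, h3' x hx y hy]
    ring
  · filter_upwards [Lp.coeFn_add (c • ψ) ψ', Lp.coeFn_smul c ψ, h4, h4'] with t a1 a2 a3 a4
    rw [a1, Pi.add_apply, a2, ← a3, ← a4]; rfl

lemma gr_zero (a : ℝ) : Gr a 0 0 :=
  ⟨0, 0, by simp, fun x hx => by
    rw [icongr (g := fun _ => 0) (Lp.coeFn_zero _ _ _) z_mem hx]; simp, Lp.coeFn_zero _ _ _,
    rfl, rfl⟩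

lemma ker_zero (a : ℝ) (z : ℂ) : ∀ k, (0 : L2) ∈ Ker a z k
  | 0 => rfl
  | k + 1 => ⟨0, gr_zero a, by simpa using ker_zero a z k⟩

lemma ker_lin {a : ℝ} (ha : π / 2 * a ∈ II) (z c : ℂ) : ∀ k, ∀ ψ ∈ Ker a z k, ∀ ψ' ∈ Ker a z k,
    c • ψ + ψ' ∈ Ker a z k
  | 0, ψ, h, ψ', h' => by
    rw [show ψ = 0 from h, show ψ' = 0 from h', smul_zero, add_zero]; rfl
  | k + 1, ψ, ⟨g, h1, h2⟩, ψ', ⟨g', h1', h2'⟩ => ⟨_, h1.lin ha h1' c, by
    convert ker_lin ha z c k _ h2 _ h2' using 1; module⟩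

lemma ker_succ (a : ℝ) (z : ℂ) : ∀ k, Ker a z k ⊆ Ker a z (k + 1)
  | 0 => fun ψ h => by rw [show ψ = 0 from h]; exact ker_zero a z 1
  | k + 1 => fun ψ ⟨g, h1, h2⟩ => ⟨g, h1, ker_succ a z k h2⟩

def Root {a : ℝ} (ha : π / 2 * a ∈ II) (z : ℂ) : Submodule ℂ L2 where
  carrier := ⋃ k, Ker a z k
  zero_mem' := mem_iUnion.2 ⟨0, rfl⟩
  add_mem' := by
    intro ψ ψ' h h'
    obtain ⟨k, h⟩ := mem_iUnion.1 h
    obtain ⟨k', h'⟩ := mem_iUnion.1 h'
    have m := monotone_nat_of_le_succ (ker_succ a z)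
    exact mem_iUnion.2 ⟨max k k', by
      simpa using ker_lin ha z 1 _ _ (m (le_max_left _ _) h) _ (m (le_max_right _ _) h')⟩
  smul_mem' := by
    intro c ψ h
    obtain ⟨k, h⟩ := mem_iUnion.1 h
    exact mem_iUnion.2 ⟨k, by simpa using ker_lin ha z c _ _ h _ (ker_zero a z k)⟩

lemma kill {a : ℝ} {z w : ℂ} (hw : w ≠ z) (l : L2 →L[ℂ] ℂ) (P : L2 → Prop)
    (hP : ∀ ψ g, Gr a ψ g → P ψ → P (g - z • ψ) ∧ l g = w * l ψ) :
    ∀ k, ∀ ψ ∈ Ker a z k, P ψ → l ψ = 0
  | 0, ψ, h, _ => by rw [show ψ = 0 from h, map_zero]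
  | k + 1, ψ, ⟨g, h1, h2⟩, h => by
    have := kill hw l P hP k _ h2 (hP ψ g h1 h).1
    rw [map_sub, map_smul, (hP ψ g h1 h).2, smul_eq_mul, ← sub_mul] at this
    exact (mul_eq_zero.1 this).resolve_left (sub_ne_zero.2 hw)

lemma ibp0 {g s s' : ℝ → ℝ} {A B : ℝ} (hg : IntervalIntegrable g volume A B)
    (hs : ∀ x, HasDerivAt s (s' x) x) (hs' : Continuous s') :
    ∫ x in A..B, s x * g x = s B * (∫ x in A..B, g x) - ∫ x in A..B, s' x * ∫ t in A..x, g t := by
  have e : deriv s = s' := funext fun x => (hs x).deriv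
  have c1 : ContDiff ℝ 1 s := contDiff_one_iff_deriv.2 ⟨fun x => (hs x).differentiableAt, e ▸ hs'⟩
  have := c1.contDiffOn.absolutelyContinuousOnInterval.integral_mul_deriv_eq_deriv_mul
    (hg.absolutelyContinuousOnInterval_intervalIntegral left_mem_uIcc)
  rw [e, intervalIntegral.integral_same, mul_zero, sub_zero] at this
  rw [← this]
  refine intervalIntegral.integral_congr_ae ?_
  filter_upwards [hg.ae_hasDerivAt_integral] with x hx h
  rw [(hx (uIoc_subset_uIcc h) A left_mem_uIcc).deriv]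

lemma ibp1 {g : ℝ → ℂ} {s s' : ℝ → ℝ} {A B : ℝ} (hg : IntervalIntegrable g volume A B)
    (hs : ∀ x, HasDerivAt s (s' x) x) (hs' : Continuous s') :
    ∫ x in A..B, s x * g x = s B * (∫ x in A..B, g x) - ∫ x in A..B, s' x * ∫ t in A..x, g t := by
  have cs : Continuous s := continuous_iff_continuousAt.2 fun x => (hs x).continuousAt
  have i1 : IntervalIntegrable (fun x => (s x : ℂ) * g x) volume A B :=
    hg.continuousOn_mul (by fun_prop)
  have i2 : IntervalIntegrable (fun x => (s' x : ℂ) * ∫ t in A..x, g t) volume A B :=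
    (((continuous_ofReal.comp hs').continuousOn).mul
      (intervalIntegral.continuousOn_primitive_interval' hg left_mem_uIcc)).intervalIntegrable
  have key : ∀ φ : ℂ →L[ℝ] ℝ, φ (∫ x in A..B, s x * g x) =
      φ (s B * (∫ x in A..B, g x) - ∫ x in A..B, s' x * ∫ t in A..x, g t) := by
    intro φ
    have hφ : IntervalIntegrable (fun x => φ (g x)) volume A B :=
      ⟨φ.integrable_comp hg.1, φ.integrable_comp hg.2⟩
    rw [map_sub, ← φ.intervalIntegral_comp_comm i1, ← φ.intervalIntegral_comp_comm i2]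
    simp only [← real_smul, map_smul, smul_eq_mul]
    rw [ibp0 hφ hs hs', φ.intervalIntegral_comp_comm hg]
    congr 1
    refine intervalIntegral.integral_congr fun x hx => ?_
    rw [φ.intervalIntegral_comp_comm (hg.mono_set (uIcc_subset_uIcc left_mem_uIcc hx))]
  exact Complex.ext (key reCLM) (key imCLM)

lemma eig {a : ℝ} {ψ g : L2} {u v : ℝ → ℂ} (h : Gr' a ψ g u v) {A B : ℝ} (hA : A ∈ II)
    (hB : B ∈ II) (k θ : ℝ) :
    ∫ x in A..B, (Real.sin (k * x + θ) : ℝ) * g x =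
      k ^ 2 * (∫ x in A..B, (Real.sin (k * x + θ) : ℝ) * ψ x) +
      (Real.sin (k * A + θ) * v A - Real.sin (k * B + θ) * v B) +
      k * (Real.cos (k * B + θ) * u B - Real.cos (k * A + θ) * u A) := by
  obtain ⟨h1, h2, h3, h4, -⟩ := h
  have cu : Continuous u := continuous_iff_continuousAt.2 fun x => (h1 x).continuousAt
  have d0 : ∀ x, HasDerivAt (fun x => k * x + θ) k x := fun x => by
    simpa using ((hasDerivAt_id x).const_mul k).add_const θ
  have d1 : ∀ x, HasDerivAt (fun x => Real.sin (k * x + θ)) (Real.cos (k * x + θ) * k) x :=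
    fun x => (d0 x).sin
  have d2 : ∀ x, HasDerivAt (fun x => ((Real.cos (k * x + θ) * k : ℝ) : ℂ))
      ((-Real.sin (k * x + θ) * k * k : ℝ) : ℂ) x := fun x => ((d0 x).cos.mul_const k).ofReal_comp
  rw [ibp1 (ii g hA hB) d1 (by fun_prop), h3 A hA B hB,
    intervalIntegral.integral_congr (g := fun x => ((Real.cos (k * x + θ) * k : ℝ) : ℂ) * v A -
      ((Real.cos (k * x + θ) * k : ℝ) : ℂ) * v x) (fun x hx => by
        simp only; rw [h3 A hA x (uIcc_subset_Icc hA hB hx)]; ring),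
    intervalIntegral.integral_sub (Continuous.intervalIntegrable (by fun_prop) _ _)
      (Continuous.intervalIntegrable (by fun_prop) _ _), intervalIntegral.integral_mul_const,
    intervalIntegral.integral_eq_sub_of_hasDerivAt (fun x _ => (d1 x).ofReal_comp)
      (Continuous.intervalIntegrable (by fun_prop) _ _),
    intervalIntegral.integral_mul_deriv_eq_deriv_mul (fun x _ => d2 x) (fun x _ => h1 x)
      (Continuous.intervalIntegrable (by fun_prop) _ _) (h2.intervalIntegrable _ _),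
    icongr (f := fun x => (Real.sin (k * x + θ) : ℝ) * ψ x)
      (g := fun x => (Real.sin (k * x + θ) : ℝ) * u x) (h4.mono fun x hx => by rw [hx]) hA hB,
    ← intervalIntegral.integral_const_mul,
    show (∫ x in A..B, ((-Real.sin (k * x + θ) * k * k : ℝ) : ℂ) * u x) =
      -∫ x in A..B, (k : ℂ) ^ 2 * ((Real.sin (k * x + θ) : ℝ) * u x) by
        rw [← intervalIntegral.integral_neg]; congr 1; funext x
        simp only [ofReal_mul, ofReal_neg]; ring]
  simp only [ofReal_mul]; ring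

open Classical in
noncomputable def T (w : ℝ → ℂ) : L2 := if h : MemLp w 2 mu then h.toLp w else 0

lemma T_ae {w : ℝ → ℂ} (h : MemLp w 2 mu) : ∀ᵐ x ∂mu, T w x = w x := by
  rw [T, dif_pos h]; exact h.coeFn_toLp

lemma cmem {w : ℝ → ℂ} (h : Continuous w) : MemLp w 2 mu := by
  obtain ⟨M, hM⟩ := isCompact_Icc.exists_bound_of_continuousOn (s := II) h.continuousOn
  exact Bd.mem ⟨h.measurable, fun x hx => hM x (Ioo_subset_Icc_self hx)⟩

noncomputable def P (w : ℝ → ℂ) : L2 →L[ℂ] ℂ := innerSL ℂ (T fun x => conj (w x))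

lemma P_eq {w : ℝ → ℂ} (h : MemLp w 2 mu) (f : L2) : P w f = ∫ x, w x * f x ∂mu := by
  rw [P, innerSL_apply_apply, L2.inner_def]
  refine integral_congr_ae ?_
  filter_upwards [T_ae (w := fun x => conj (w x)) h.star] with x hx
  rw [hx]; simp [mul_comm]

lemma Bes.summ {w w' : ℕ → ℝ → ℂ} (hw : Bes w) (hw' : Bes w') (f : L2) :
    Summable fun n => P (w n) f • T (w' n) := by
  obtain ⟨h1, C, hC, h2⟩ := hw
  obtain ⟨h1', C', hC', h2'⟩ := hw'
  refine syn hC' (fun y s => ?_) (summable_of_sum_le (fun _ => sq_nonneg _) fun s => by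
    simp only [P_eq (h1 _)]; exact h2 f (Lp.memLp f) s)
  have e : ∫ x, ‖conj (y x)‖ ^ 2 ∂mu = ‖y‖ ^ 2 := by
    have := L2.inner_def (𝕜 := ℂ) y y
    rw [inner_self_eq_norm_sq_to_K] at this
    simp only [inner_self_eq_norm_sq_to_K] at this
    simp only [norm_conj]
    apply ofReal_injective
    rw [← integral_complex_ofReal]
    push_cast
    exact this.symm
  rw [← e]
  convert h2' (fun x => conj (y x)) (Lp.memLp y).star s using 4 with n
  rw [L2.inner_def]
  refine integral_congr_ae ?_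
  filter_upwards [T_ae (h1' n)] with x hx
  rw [hx]; simp

noncomputable def W (A B r k θ : ℝ) (x : ℝ) : ℂ :=
  (Ioo A B).indicator (fun _ => (r : ℂ)) x * (Real.sin (k * x + θ) : ℝ)

lemma bd_ind (A B r : ℝ) : Bd ((Ioo A B).indicator fun _ => (r : ℂ)) |r| :=
  ⟨measurable_const.indicator measurableSet_Ioo, fun x _ => by
    by_cases hx : x ∈ Ioo A B <;> simp [hx]⟩

lemma PW {A B : ℝ} (hA : A ∈ II) (hB : B ∈ II) (h : A ≤ B) (r k θ : ℝ) (f : L2) :
    P (W A B r k θ) f = r * ∫ x in A..B, (Real.sin (k * x + θ) : ℝ) * f x := by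
  rw [P_eq (w := W A B r k θ) ((bd_ind A B r).mul (cmem (by fun_prop))), ← intervalIntegral.integral_const_mul,
    intervalIntegral.integral_of_le h, integral_Ioc_eq_integral_Ioo,
    ← Measure.restrict_restrict_of_subset (Ioo_subset_Ioo hA.1 hB.2),
    ← integral_indicator (μ := mu) measurableSet_Ioo]
  congr 1; funext x
  by_cases hx : x ∈ Ioo A B <;> simp [W, hx, mul_assoc]

lemma PWT {A B : ℝ} (hA : A ∈ II) (hB : B ∈ II) (h : A ≤ B) (r k θ : ℝ) {w : ℝ → ℝ}
    (hw : Continuous w) :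
    P (W A B r k θ) (T fun x => w x) = (r * ∫ x in A..B, Real.sin (k * x + θ) * w x : ℝ) := by
  rw [PW hA hB h, icongr (g := fun x => ((Real.sin (k * x + θ) * w x : ℝ) : ℂ)) (by
    filter_upwards [T_ae (w := fun x => (w x : ℂ)) (cmem (by fun_prop))] with x hx
    rw [hx, ofReal_mul]) hA hB, intervalIntegral.integral_ofReal, ofReal_mul]

noncomputable def U (A B C k : ℝ) (x : ℝ) : ℝ :=
  A * Real.sin (k * x) + B * Real.cos (k * x) + C * (x * Real.sin (k * x))

@[fun_prop] lemma U_cont (A B C k : ℝ) : Continuous (U A B C k) := by unfold U; fun_prop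

lemma grU {a : ℝ} (ha : π / 2 * a ∈ II) {A B C k : ℝ}
    (h1 : U A B C k (-(π / 2)) = U A B C k (π / 2 * a))
    (h2 : U A B C k (π / 2 * a) = U A B C k (π / 2)) :
    Gr a (T fun x => U A B C k x) ((k ^ 2 : ℂ) • (T fun x => U A B C k x) +
      T fun x => U 0 (-2 * k * C) 0 k x) := by
  have d0 : ∀ x, HasDerivAt (fun x => k * x) k x := fun x => by
    simpa using (hasDerivAt_id x).const_mul k
  set v : ℝ → ℝ := fun x => A * (Real.cos (k * x) * k) + B * (-Real.sin (k * x) * k) +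
    C * (1 * Real.sin (k * x) + x * (Real.cos (k * x) * k))
  have d1 : ∀ x, HasDerivAt (U A B C k) (v x) x := fun x =>
    (((d0 x).sin.const_mul A).add ((d0 x).cos.const_mul B)).add
      (((hasDerivAt_id x).mul (d0 x).sin).const_mul C)
  have d2 : ∀ x, HasDerivAt v (-(k ^ 2 * U A B C k x + U 0 (-2 * k * C) 0 k x)) x := fun x => by
    convert ((((d0 x).cos.mul_const k).const_mul A).add
      (((d0 x).sin.neg.mul_const k).const_mul B)).add (((((d0 x).sin.const_mul 1)).add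
        ((hasDerivAt_id x).mul ((d0 x).cos.mul_const k))).const_mul C) using 1
    all_goals first | rfl | (simp only [U, id]; ring)
  have t1 := T_ae (w := fun x => (U A B C k x : ℂ)) (cmem (by fun_prop))
  refine (gr_iff ha).2 ⟨fun x => U A B C k x, fun x => v x, fun x => (d1 x).ofReal_comp,
    by fun_prop, fun x hx y hy => ?_, t1, by simp only [h1], by simp only [h2]⟩
  rw [icongr (g := fun x => -((-(k ^ 2 * U A B C k x + U 0 (-2 * k * C) 0 k x) : ℝ) : ℂ)) (by
      filter_upwards [t1, T_ae (w := fun x => (U 0 (-2 * k * C) 0 k x : ℂ)) (cmem (by fun_prop)),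
        Lp.coeFn_add ((k ^ 2 : ℂ) • (T fun x => U A B C k x)) (T fun x => U 0 (-2 * k * C) 0 k x),
        Lp.coeFn_smul (k ^ 2 : ℂ) (T fun x => U A B C k x)] with t a1 a2 a3 a4
      rw [a3, Pi.add_apply, a4, Pi.smul_apply, a1, a2]; simp) hx hy,
    intervalIntegral.integral_neg, intervalIntegral.integral_eq_sub_of_hasDerivAt
      (fun x _ => (d2 x).ofReal_comp) (Continuous.intervalIntegrable (by fun_prop) _ _)]
  ring

lemma T_zero (k : ℝ) : (T fun x => U 0 0 0 k x) = 0 := by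
  refine Lp.ext ?_
  filter_upwards [T_ae (w := fun x => (U 0 0 0 k x : ℂ)) (cmem (by fun_prop)),
    Lp.coeFn_zero ℂ 2 mu] with x h1 h2
  rw [h1, h2]; simp [U]

lemma memU1 {a : ℝ} (ha : π / 2 * a ∈ II) {A B k : ℝ}
    (h1 : U A B 0 k (-(π / 2)) = U A B 0 k (π / 2 * a))
    (h2 : U A B 0 k (π / 2 * a) = U A B 0 k (π / 2)) :
    (T fun x => U A B 0 k x) ∈ Ker a (k ^ 2) 1 :=
  ⟨_, grU ha h1 h2, by rw [mul_zero, T_zero]; simp [Ker]⟩

end Pool.Agent.H.MP_1ebdda_an
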