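import Pool.Agent.H.MP_1ebdda_an.C

namespace Pool.Agent.H.MP_1ebdda_an
open Filter Topology Set Real
open MeasureTheory hiding integral_const_mul integral_const integral_add integral_sub

lemma odd0 {φ : ℝ → ℝ} (h : ∀ x, φ (-x) = -φ x) (L : ℝ) : ∫ x in -L..L, φ x = 0 := by
  have e := intervalIntegral.integral_comp_neg (a := -L) (b := L) φ
  simp only [h, neg_neg, intervalIntegral.integral_neg] at e
  linarith

lemma icos {L : ℝ} (hL : 0 < L) (j : ℤ) :
    ∫ x in -L..L, cos (π / L * j * x) = if j = 0 then 2 * L else 0 := by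
  split_ifs with h
  · simp [h]; ring
  · have : π / L * j ≠ 0 := mul_ne_zero (by positivity) (by exact_mod_cast h)
    rw [intervalIntegral.integral_comp_mul_left cos this, integral_cos,
      show π / L * j * L = j * π by field_simp, show π / L * j * -L = -(j * π) by field_simp]
    simp

lemma cc0 {L : ℝ} (hL : 0 < L) (m n : ℕ) (s : ℝ) {φ : ℝ → ℝ}
    (h : ∀ x, φ x = (cos (π / L * m * x - π / L * n * x) +
      s * cos (π / L * m * x + π / L * n * x)) / 2) :
    ∫ x in -L..L, φ x = (if m = n then L else 0) + s * if m + n = 0 then L else 0 := by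
  have e : ∀ x, φ x = 2⁻¹ * cos (π / L * ((m : ℤ) - n : ℤ) * x) +
      s / 2 * cos (π / L * ((m : ℤ) + n : ℤ) * x) := fun x => by
    rw [h]; push_cast; ring_nf
  simp only [e]
  rw [intervalIntegral.integral_add (Continuous.intervalIntegrable (by fun_prop) _ _)
    (Continuous.intervalIntegrable (by fun_prop) _ _), intervalIntegral.integral_const_mul,
    intervalIntegral.integral_const_mul, icos hL, icos hL]
  simp only [sub_eq_zero, Nat.cast_inj, show ((m : ℤ) + n = 0) ↔ m + n = 0 by omega]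
  split_ifs <;> ring

lemma ss {L : ℝ} (hL : 0 < L) (m n : ℕ) : ∫ x in -L..L,
    sin (π / L * (m + 1 : ℕ) * x) * sin (π / L * (n + 1 : ℕ) * x) = if m = n then L else 0 := by
  rw [cc0 hL (m + 1) (n + 1) (-1) fun x => by rw [cos_sub, cos_add]; ring]
  simp

lemma ss' {L : ℝ} (hL : 0 < L) (m n : ℕ) (b : ℝ) {φ : ℝ → ℝ} (hc : Continuous φ)
    (h : ∀ x, φ (-x) = φ x) : ∫ x in -L..L, sin (π / L * (m + 1 : ℕ) * x) *
      (b * sin (π / L * (n + 1 : ℕ) * x) + φ x) = if m = n then b * L else 0 := by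
  simp only [mul_add, mul_left_comm _ b]
  rw [intervalIntegral.integral_add (Continuous.intervalIntegrable (by fun_prop) _ _)
    (Continuous.intervalIntegrable (by fun_prop) _ _), intervalIntegral.integral_const_mul, ss hL,
    odd0 fun x => by rw [h, mul_neg, sin_neg, neg_mul]]
  simp

lemma per (ρ : ℚ) (Φ : ℝ → ℝ → ℝ → ℝ) :
    ∃ M, ∀ n : ℕ, |Φ (sin (π * n * ρ)) (cos (π * n * ρ)) (cos (π * n))| ≤ M := by
  set φ : ℕ → ℝ := fun n => Φ (sin (π * n * ρ)) (cos (π * n * ρ)) (cos (π * n))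
  have hp : Function.Periodic φ (2 * ρ.den) := fun n => by
    have e1 : π * (n + 2 * ρ.den : ℕ) * ρ = π * n * ρ + ρ.num * (2 * π) := by
      have : (ρ.num : ℝ) = ρ * ρ.den := by exact_mod_cast (Rat.mul_den_eq_num ρ).symm
      rw [this]; push_cast; ring
    have e2 : π * (n + 2 * ρ.den : ℕ) = π * n + ρ.den * (2 * π) := by push_cast; ring
    simp only [φ]
    rw [e1, e2, sin_add_int_mul_two_pi, cos_add_int_mul_two_pi, cos_add_nat_mul_two_pi]
  refine ⟨∑ i ∈ Finset.range (2 * ρ.den), |φ i|, fun n => ?_⟩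
  show |φ n| ≤ _
  rw [← hp.map_mod_nat n]
  exact Finset.single_le_sum (f := fun i => |φ i|) (fun _ _ => abs_nonneg _)
    (Finset.mem_range.2 (Nat.mod_lt _ (by have := ρ.den_pos; omega)))

lemma besU {ω : ℝ} (hω : 0 < ω) (j : ℕ) {A B C : ℕ → ℝ} {a b c : ℝ} (hA : ∀ n, |A n| ≤ a)
    (hB : ∀ n, |B n| ≤ b) (hC : ∀ n, |C n| ≤ c) :
    Bes fun n x => (U (A n) (B n) (C n) (ω * (n + j : ℕ)) x : ℝ) := by
  have h1 := bes_sin hω j fun _ => 0
  have h2 := bes_sin hω j fun _ => π / 2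
  have h3 := h1.mul (h := fun x => x) (M := π / 2) ⟨by fun_prop, fun x hx => by
    rw [Complex.norm_real]; exact (abs_lt.2 hx).le⟩
  convert ((h1.smul (b := fun n => A n) (M := a) (by simpa)).add (h2.smul (b := fun n => B n)
    (M := b) (by simpa))).add (h3.smul (b := fun n => C n) (M := c) (by simpa)) using 3 with n x
  simp only [U, add_zero, sin_add_pi_div_two, Complex.ofReal_add, Complex.ofReal_mul]

lemma besW {ω : ℝ} (hω : 0 < ω) (j : ℕ) (A B r : ℝ) (θ : ℕ → ℝ) :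
    Bes fun n => W A B r (ω * (n + j : ℕ)) (θ n) := (bes_sin hω j θ).mul (bd_ind A B r)

lemma aeA {p : ℝ → Prop} (h : ∀ᵐ x, p x) (t : ℝ) : ∀ᵐ x, p (t + x) :=
  (measurePreserving_add_left volume t).quasiMeasurePreserving.ae h
lemma aeS {p : ℝ → Prop} (h : ∀ᵐ x, p x) (t : ℝ) : ∀ᵐ x, p (t - x) :=
  (Measure.measurePreserving_sub_left volume t).quasiMeasurePreserving.ae h
lemma aeN {p : ℝ → Prop} (h : ∀ᵐ x, p x) : ∀ᵐ x, p (-x) := by simpa using aeS h 0

lemma memsh (f : L2) {c L : ℝ} (h1 : c - L ∈ II) (h2 : c + L ∈ II) :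
    MemLp (fun x => f (c + x)) 2 (volume.restrict (Ioo (-L) L)) := by
  have := (measurePreserving_add_left (volume : Measure ℝ) c).restrict_preimage
    (s := Ioo (c - L) (c + L)) measurableSet_Ioo
  rw [show (fun x => c + x) ⁻¹' Ioo (c - L) (c + L) = Ioo (-L) L by
    ext x; simp only [mem_preimage, mem_Ioo]; constructor <;> intro h <;> constructor <;>
      linarith [h.1, h.2]] at this
  exact ((Lp.memLp f).mono_measure (Measure.restrict_mono (Ioo_subset_Ioo h1.1 h2.2)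
    le_rfl)).comp_measurePreserving this

lemma shift {E : Type} [NormedAddCommGroup E] [NormedSpace ℝ E] (φ : ℝ → E) (c L : ℝ) :
    ∫ x in c - L..c + L, φ x = ∫ x in -L..L, φ (c + x) := by
  rw [intervalIntegral.integral_comp_add_left, sub_eq_add_neg]

noncomputable def LS (c L : ℝ) (n : ℕ) : L2 →L[ℂ] ℂ :=
  P (W (c - L) (c + L) L⁻¹ (π / L * (n + 1 : ℕ)) (-(π / L * (n + 1 : ℕ) * c)))

lemma LS_sym {c L : ℝ} (hL : 0 < L) (h1 : c - L ∈ II) (h2 : c + L ∈ II) {f : L2}
    (h : ∀ n, LS c L n f = 0) : ∀ᵐ x, x ∈ Ioo (-L) L → f (c + x) = f (c - x) := by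
  simp only [sub_eq_add_neg c]
  refine sym_sin (F := fun x => f (c + x)) hL (memsh f h1 h2) fun n => ?_
  have := h n
  rw [LS, PW h1 h2 (by linarith), shift, mul_eq_zero] at this
  rw [← this.resolve_left (by simpa using hL.ne')]
  congr 1; funext x; congr 3; ring

lemma LS_T {c L : ℝ} (hL : 0 < L) (h1 : c - L ∈ II) (h2 : c + L ∈ II) (m n : ℕ) (b : ℝ)
    {w φ : ℝ → ℝ} (hw : Continuous w) (h : ∀ x, φ (-x) = φ x)
    (e : ∀ x, w (c + x) = b * sin (π / L * (n + 1 : ℕ) * x) + φ x) :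
    LS c L m (T fun x => w x) = if m = n then (b : ℂ) else 0 := by
  have hφ : Continuous φ := by
    rw [show φ = fun x => w (c + x) - b * sin (π / L * (n + 1 : ℕ) * x) from
      funext fun x => by rw [e]; ring]
    fun_prop
  rw [LS, PWT h1 h2 (by linarith) _ _ _ hw, shift]
  simp only [e, show ∀ k x : ℝ, k * (c + x) + -(k * c) = k * x from fun _ _ => by ring]
  rw [ss' hL m n b hφ h]
  split_ifs
  · congr 1; field_simp
  · simp

lemma sk (L : ℝ) (n : ℕ) : sin (π / L * n * L) = 0 := by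
  by_cases h : L = 0
  · simp [h]
  · rw [show π / L * n * L = n * π by field_simp, sin_nat_mul_pi]

lemma LS_eig {a c L : ℝ} (hL : 0 < L) (h1 : c - L ∈ II) (h2 : c + L ∈ II) (n : ℕ) {ψ g : L2}
    {u v : ℝ → ℂ} (h : Gr' a ψ g u v) (hu : u (c - L) = u (c + L)) :
    LS c L n g = (((π / L * (n + 1 : ℕ) : ℝ) : ℂ)) ^ 2 * LS c L n ψ := by
  rw [LS, PW h1 h2 (by linarith), PW h1 h2 (by linarith), eig h h1 h2, hu]
  simp only [show ∀ k x : ℝ, k * (c + x) + -(k * c) = k * x from fun _ _ => by ring,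
    show ∀ k x : ℝ, k * (c - x) + -(k * c) = -(k * x) from fun _ _ => by ring, sin_neg, cos_neg, sk]
  simp only [neg_zero, Complex.ofReal_zero]; ring

lemma inj {L : ℝ} (hL : 0 < L) (j : ℕ) :
    Function.Injective fun n : ℕ => (((π / L * (n + j : ℕ) : ℝ) : ℂ)) ^ 2 := fun m n h => by
  have h1 : (π / L * (m + j : ℕ)) ^ 2 = (π / L * (n + j : ℕ)) ^ 2 := by
    beta_reduce at h; exact_mod_cast h
  have h2 := mul_left_cancel₀ (by positivity)
    ((pow_left_inj₀ (by positivity) (by positivity) two_ne_zero).1 h1)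
  exact Nat.add_right_cancel (Nat.cast_injective h2)

end Pool.Agent.H.MP_1ebdda_an
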