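import Pool.Agent.H.MP_1ebdda_an.D

namespace Pool.Agent.H.MP_1ebdda_an
open Filter Topology Set Real
open MeasureTheory hiding integral_const_mul integral_const integral_add integral_sub

noncomputable def LC (L : ℝ) (n : ℕ) : L2 →L[ℂ] ℂ :=
  P (W (-L) L L⁻¹ (π / L * (n + 0 : ℕ)) (π / 2))

lemma LC_sym {L : ℝ} (hL : 0 < L) (h : L ≤ π / 2) {f : L2} (h0 : ∀ n, LC L n f = 0) :
    ∀ᵐ x, x ∈ Ioo (-L) L → f x = -f (-x) := by
  have h1 : -L ∈ II := ⟨by linarith, by linarith [pi_pos]⟩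
  have h2 : L ∈ II := ⟨by linarith [pi_pos], h⟩
  refine sym_cos hL ((Lp.memLp f).mono_measure (Measure.restrict_mono (Ioo_subset_Ioo h1.1 h2.2)
    le_rfl)) fun n => ?_
  have := h0 n
  rw [LC, PW h1 h2 (by linarith), mul_eq_zero] at this
  simpa only [sin_add_pi_div_two, add_zero] using this.resolve_left (by simpa using hL.ne')

lemma LS_0 {c L : ℝ} (hL : 0 < L) (h1 : c - L ∈ II) (h2 : c + L ∈ II) (m : ℕ)
    {w : ℝ → ℝ} (hw : Continuous w) (h : ∀ x, w (c + -x) = w (c + x)) :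
    LS c L m (T fun x => w x) = 0 := by
  simpa using LS_T hL h1 h2 m m 0 hw (φ := fun x => w (c + x)) h (fun x => by simp)

lemma pw {F G : ℝ → ℂ} (hF : Continuous F) (hG : Continuous G) {A B : ℝ}
    (h : ∀ᵐ x, x ∈ Ioo A B → F x = G x) {y : ℝ} (hy : y ∈ Ioo A B) : F =ᶠ[𝓝 y] G := by
  have := Measure.eqOn_open_of_ae_eq ((ae_restrict_iff' measurableSet_Ioo).2 h) isOpen_Ioo
    hF.continuousOn hG.continuousOn
  filter_upwards [Ioo_mem_nhds hy.1 hy.2] with x hx using this hx

theorem core {a c β : ℝ} {ρ ρ' : ℚ} (hβ : 0 < β) (hc : β ≤ |c|) (hs : |c| + β = π / 2)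
    (hbc : (c - β = π / 2 * a ∧ c + β = π / 2) ∨ (c - β = -(π / 2) ∧ c + β = π / 2 * a))
    (hρ : c = ρ * β) (hρ' : a = ρ') :
    ∃ (ψ : ℕ → L2) (ev : ℕ → ℂ),
      (∀ z, LinearIndependent ℂ (fun j : {j // ev j = z} => ψ j) ∧
        (Submodule.span ℂ (ψ '' {j | ev j = z}) : Set L2) = ⋃ k, Ker a z k) ∧
      (∀ f, ∃! c : ℕ → ℂ, Tendsto (fun N => ∑ j ∈ Finset.range N, c j • ψ j) atTop (𝓝 f)) ∧
      ∀ f, ∃ c : ℕ → ℂ, HasSum (fun j => c j • ψ j) f := by
  have hp := pi_pos
  have hp2 : 0 < π / 2 := by positivity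
  have hα : 0 < |c| := by linarith
  have l1 := le_abs_self c
  have l2 := neg_abs_le c
  have c1 : c - β ∈ II := ⟨by linarith, by linarith⟩
  have c2 : c + β ∈ II := ⟨by linarith, by linarith⟩
  have ha : π / 2 * a ∈ II := by rcases hbc with h | h; exacts [h.1 ▸ c1, h.2 ▸ c2]
  have z1 : 0 - π / 2 ∈ II := by simpa using l_mem
  have z2 : 0 + π / 2 ∈ II := by simpa using r_mem
  have a1 : -|c| ∈ II := ⟨by linarith, by linarith⟩
  have a2 : |c| ∈ II := ⟨by linarith, by linarith⟩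
  have bc : ∀ {E : Type} {e : ℝ → E}, e (-(π / 2)) = e (π / 2) → e (c - β) = e (c + β) →
      e (-(π / 2)) = e (π / 2 * a) ∧ e (π / 2 * a) = e (π / 2) := by
    intro E e h1 h2
    rcases hbc with h | h <;> rw [h.1, h.2] at h2
    exacts [⟨h1.trans h2.symm, h2⟩, ⟨h2, h2.symm.trans h1⟩]
  have bc' : ∀ {u : ℝ → ℂ}, u (-(π / 2)) = u (π / 2 * a) ∧ u (π / 2 * a) = u (π / 2) →
      u (c - β) = u (c + β) := by
    intro u h1
    rcases hbc with h | h <;> rw [h.1, h.2]
    exacts [h1.2, h1.1]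
  set k : ℝ → ℕ → ℝ := fun L n => π / L * n with hk
  set Bm : ℕ → ℝ := fun m => -sin (k (π / 2) (m + 1) * (π / 2 * a)) /
    (cos (k (π / 2) (m + 1) * (π / 2 * a)) - cos (k (π / 2) (m + 1) * (π / 2)))
  set q : ℕ → ℝ := fun n => -(sin (k β (n + 1) * c))⁻¹
  set p : ℕ → ℝ := fun n => if sin (k β (n + 1) * c) = 0 then cos (k β (n + 1) * c) / c else 0
  set r : ℕ → ℝ := fun n => if n = 0 then 2⁻¹ else 1
  obtain ⟨M1, hM1⟩ := per ρ' fun s t w => -s / (t - w)
  obtain ⟨M2, hM2⟩ := per ρ fun s _ _ => -s⁻¹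
  have bB : ∀ m, |Bm m| ≤ M1 := fun m => by
    have e1 : k (π / 2) (m + 1) * (π / 2 * a) = π * (m + 1 : ℕ) * ρ' := by
      simp only [hk, hρ']; field_simp
    have e2 : k (π / 2) (m + 1) * (π / 2) = π * (m + 1 : ℕ) := by simp only [hk]; field_simp
    simp only [Bm]; rw [e1, e2]; exact hM1 (m + 1)
  have bq : ∀ n, |q n| ≤ M2 := fun n => by
    have e1 : k β (n + 1) * c = π * (n + 1 : ℕ) * ρ := by simp only [hk, hρ]; field_simp
    simp only [q]; rw [e1]; exact hM2 (n + 1)
  have bp : ∀ n, |p n| ≤ 1 / |c| := fun n => by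
    simp only [p]; split_ifs
    · rw [abs_div]; gcongr; exact abs_cos_le_one _
    · simp
  have br : ∀ n, |r n| ≤ 1 := fun n => by simp only [r]; split_ifs <;> norm_num [abs_of_pos]
  have b0 : ∀ _ : ℕ, |(0 : ℝ)| ≤ 0 := fun _ => by simp
  have sc : ∀ n, sin (k |c| n * c) = 0 := fun n => by
    rcases abs_choice c with h | h
    · conv_lhs => arg 1; arg 2; rw [← h]
      exact sk _ _
    · rw [show k |c| n * c = -(k |c| n * |c|) by rw [← mul_neg]; congr 1; linarith, sin_neg]
      exact neg_eq_zero.2 (sk _ _)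
  have ev0 : ∀ {B C κ : ℝ} (x : ℝ), U 0 B C κ (-x) = U 0 B C κ x := fun x => by simp [U]
  have E1 : ∀ {ψ g}, Gr a ψ g → ∀ n, LS 0 (π / 2) n g =
      ((k (π / 2) (n + 1) : ℝ) : ℂ) ^ 2 * LS 0 (π / 2) n ψ := fun h n => by
    obtain ⟨u, v, h⟩ := (gr_iff ha).1 h
    exact LS_eig hp2 z1 z2 n h (by simpa using h.2.2.2.2.1.trans h.2.2.2.2.2)
  have E2 : ∀ {ψ g}, Gr a ψ g → ∀ n, LS c β n g =
      ((k β (n + 1) : ℝ) : ℂ) ^ 2 * LS c β n ψ := fun h n => by
    obtain ⟨u, v, h⟩ := (gr_iff ha).1 h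
    exact LS_eig hβ c1 c2 n h (bc' h.2.2.2.2)
  have key := abs3 (e1 := fun m => T fun x => U 1 (Bm m) 0 (k (π / 2) (m + 1)) x)
    (e2 := fun n => T fun x => U 0 (q n) (p n) (k β (n + 1)) x)
    (e3 := fun n => T fun x => U 0 (r n) 0 (k |c| (n + 0)) x)
    (l1 := LS 0 (π / 2)) (l2 := LS c β) (l3 := LC |c|)
    ((besW (by positivity) 1 _ _ _ _).summ (besU (by positivity) 1 (A := fun _ => 1) (a := 1)
      (by simp) bB b0))
    ((besW (by positivity) 1 _ _ _ _).summ (besU (by positivity) 1 b0 bq bp))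
    ((besW (by positivity) 0 _ _ _ fun _ => π / 2).summ (besU (by positivity) 0 b0 br b0))
    (fun m n => LS_T hp2 z1 z2 m n 1 (φ := fun x => Bm n * cos (k (π / 2) (n + 1) * x))
      (by fun_prop) (by simp) (fun x => by simp only [U, zero_add, zero_mul, add_zero, hk]))
    (fun m n => LS_0 hp2 z1 z2 m (U_cont _ _ _ _) fun x => by rw [zero_add, zero_add, ev0])
    (fun m n => LS_0 hp2 z1 z2 m (U_cont _ _ _ _) fun x => by rw [zero_add, zero_add, ev0])
    (fun m n => LS_T hβ c1 c2 m n 1 (φ := fun x => q n * cos (k β (n + 1) * c) *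
        cos (k β (n + 1) * x) + p n * cos (k β (n + 1) * c) * (x * sin (k β (n + 1) * x)))
      (by fun_prop) (by simp) (fun x => by
        show _ = 1 * sin (k β (n + 1) * x) + _
        simp only [U, mul_add, sin_add, cos_add, p, q]
        have := sin_sq_add_cos_sq (k β (n + 1) * c)
        have c0 : c ≠ 0 := abs_pos.1 hα
        split_ifs with h
        · rw [h] at this ⊢
          field_simp
          linear_combination c * sin (k β (n + 1) * x) * this
        · field_simp; ring))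
    (fun m n => LS_0 hβ c1 c2 m (U_cont _ _ _ _) fun x => by
      simp only [U, mul_add, cos_add, sc, mul_neg, cos_neg, zero_mul])
    (fun m n => by
      rw [LC, PWT a1 a2 (by linarith) _ _ _ (U_cont _ _ _ _)]
      simp only [U, zero_mul, zero_add, add_zero, sin_add_pi_div_two, mul_left_comm _ (r n),
        intervalIntegral.integral_const_mul]
      rw [cc0 hα m n 1 fun x => by rw [cos_sub, cos_add]; simp only [hk]; ring]
      have := hα.ne'
      by_cases h : m = n
      · subst h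
        rcases m with _ | m
        · simp [r]; norm_cast; field_simp; norm_num
        · simp [r]; norm_cast; field_simp
      · simp [h, show ¬(m = 0 ∧ n = 0) by omega])
    (fun f f1 f2 f3 => by
      have g1 := LS_sym hp2 z1 z2 f1
      simp only [zero_add, zero_sub] at g1
      have g0 : ∀ᵐ x, x ∈ Ioo (-|c|) |c| → f x = 0 := by
        filter_upwards [g1, LC_sym hα a2.2 f3] with x h1 h2 hx
        have := h1 ⟨by linarith [hx.1], by linarith [hx.2]⟩
        linear_combination (h2 hx + this) / 2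
      have g2 : ∀ᵐ y, y - c ∈ Ioo (-β) β → 2 * c - y ∈ Ioo (-|c|) |c| → f y = 0 := by
        filter_upwards [aeA (LS_sym hβ c1 c2 f2) (-c), aeS g0 (2 * c)] with y h1 h2 h3 h4
        rw [← h2 h4, show 2 * c - y = c - (-c + y) by ring, ← h1 (by rwa [neg_add_eq_sub])]
        simp
      refine Lp.ext ?_
      filter_upwards [Lp.coeFn_zero ℂ 2 mu, ae_restrict_of_ae g0, ae_restrict_of_ae g1,
        ae_restrict_of_ae g2, ae_restrict_of_ae (aeN g2), ae_restrict_mem measurableSet_Ioo,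
        ae_restrict_of_ae (Measure.ae_ne volume c), ae_restrict_of_ae (Measure.ae_ne volume (-c))]
        with y h0 h1 h2 h3 h4 h5 h6 h7
      rw [h0, Pi.zero_apply]
      obtain ⟨y1, y2⟩ := h5
      by_cases hy : y ∈ Ioo (-|c|) |c|
      · exact h1 hy
      rw [mem_Ioo, not_and_or, not_lt, not_lt] at hy
      rcases abs_choice c with h | h <;> rw [h] at hy h3 h4 hs hc hα <;> rcases hy with hy | hy
      · have := hy.lt_of_ne h7
        rw [h2 ⟨y1, y2⟩]; exact h4 ⟨by linarith, by linarith⟩ ⟨by linarith, by linarith⟩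
      · have := hy.lt_of_ne h6.symm
        exact h3 ⟨by linarith, by linarith⟩ ⟨by linarith, by linarith⟩
      · have := (hy.trans_eq (neg_neg c)).lt_of_ne h6
        exact h3 ⟨by linarith, by linarith⟩ ⟨by linarith, by linarith⟩
      · have := hy.lt_of_ne h7.symm
        rw [h2 ⟨y1, y2⟩]; exact h4 ⟨by linarith, by linarith⟩ ⟨by linarith, by linarith⟩)
    (Root ha) (inj hp2 1) (inj hβ 1) (inj hα 0)
    (fun m => by
      have s1 : sin (k (π / 2) (m + 1) * (π / 2)) = 0 := sk _ _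
      have : U 1 (Bm m) 0 (k (π / 2) (m + 1)) (π / 2 * a) =
          U 1 (Bm m) 0 (k (π / 2) (m + 1)) (π / 2) := by
        have t1 := sin_sq_add_cos_sq (k (π / 2) (m + 1) * (π / 2 * a))
        have t2 := sin_sq_add_cos_sq (k (π / 2) (m + 1) * (π / 2))
        simp only [U, s1, Bm] at t2 ⊢
        generalize cos (k (π / 2) (m + 1) * (π / 2 * a)) = A at *
        generalize cos (k (π / 2) (m + 1) * (π / 2)) = B at *
        generalize sin (k (π / 2) (m + 1) * (π / 2 * a)) = S at *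
        by_cases h : A - B = 0
        · rw [sub_eq_zero.1 h] at t1
          simp [show S = 0 by nlinarith]
        · field_simp; ring
      have t : U 1 (Bm m) 0 (k (π / 2) (m + 1)) (-(π / 2)) =
          U 1 (Bm m) 0 (k (π / 2) (m + 1)) (π / 2) := by
        simp only [U, mul_neg, sin_neg, cos_neg, s1, neg_zero, mul_zero]
      exact mem_iUnion.2 ⟨1, memU1 ha (t.trans this.symm) this⟩)
    (fun n => by
      have s1 : sin (k β (n + 1) * β) = 0 := sk _ _
      have t := bc (e := U 0 (q n) (p n) (k β (n + 1))) (ev0 _) (by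
        simp only [U, mul_add, mul_sub, sin_add, sin_sub, cos_add, cos_sub, s1, p]
        split_ifs with h
        · rw [h]; ring
        · ring)
      have t' := bc (e := U 0 (-2 * k β (n + 1) * p n) 0 (k β (n + 1))) (ev0 _) (by
        simp only [U, mul_add, mul_sub, cos_add, cos_sub, s1]; ring)
      exact mem_iUnion.2 ⟨2, _, grU ha t.1 t.2, by
        rw [add_sub_cancel_left]; exact memU1 ha t'.1 t'.2⟩)
    (fun n => by
      have t := bc (e := U 0 (r n) 0 (k |c| (n + 0))) (ev0 _) (by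
        simp only [U, mul_add, mul_sub, cos_add, cos_sub, sc]; ring)
      exact mem_iUnion.2 ⟨1, memU1 ha t.1 t.2⟩)
    (fun z f hf n hn => by
      obtain ⟨j, hj⟩ := mem_iUnion.1 hf
      exact kill hn _ (fun _ => True) (fun ψ g h _ => ⟨trivial, E1 h n⟩) j f hj trivial)
    (fun z f hf n hn => by
      obtain ⟨j, hj⟩ := mem_iUnion.1 hf
      exact kill hn _ (fun _ => True) (fun ψ g h _ => ⟨trivial, E2 h n⟩) j f hj trivial)
    (fun z f hf f1 f2 n hn => by
      obtain ⟨j, hj⟩ := mem_iUnion.1 hf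
      refine kill hn _ (fun f => (∀ n, LS 0 (π / 2) n f = 0) ∧ ∀ n, LS c β n f = 0)
        (fun ψ g h h' => ⟨⟨fun n => by simp [E1 h, h'.1], fun n => by simp [E2 h, h'.2]⟩, ?_⟩)
        j f hj ⟨f1, f2⟩
      obtain ⟨u, v, h⟩ := (gr_iff ha).1 h
      have d := h.1
      have cu : Continuous u := continuous_iff_continuousAt.2 fun x => (d x).continuousAt
      have hu := (ae_restrict_iff' measurableSet_Ioo).1 h.2.2.2.1
      have u1 : (fun x => u (c + x)) =ᶠ[𝓝 0] fun x => u (c - x) :=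
        pw (by fun_prop) (by fun_prop) (A := -β) (B := β) (by
          filter_upwards [LS_sym hβ c1 c2 h'.2, aeA hu c, aeS hu c] with x h1 h2 h3 hx
          rw [← h2 ⟨by linarith [hx.1], by linarith [hx.2]⟩,
            ← h3 ⟨by linarith [hx.2], by linarith [hx.1]⟩, h1 hx]) ⟨by linarith, hβ⟩
      have u2 : u =ᶠ[𝓝 c] fun x => u (0 - x) :=
        pw cu (by fun_prop) (A := -(π / 2)) (B := π / 2) (by
          filter_upwards [LS_sym hp2 z1 z2 h'.1, hu, aeS hu 0] with x h1 h2 h3 hx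
          rw [← h2 hx, ← h3 ⟨by linarith [hx.2], by linarith [hx.1]⟩, ← h1 hx, zero_add])
          ⟨by linarith, by linarith⟩
      have v1 : v c = 0 := by
        have := ((d (c + 0)).comp_const_add c 0).unique
          (((d (c - 0)).comp_const_sub c 0).congr_of_eventuallyEq u1)
        simp only [add_zero, sub_zero] at this
        linear_combination this / 2
      have v2 : v (-c) = 0 := by
        have := (d c).unique (((d (0 - c)).comp_const_sub 0 c).congr_of_eventuallyEq u2)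
        rw [v1, zero_sub] at this
        exact neg_eq_zero.1 this.symm
      have v3 : v |c| = 0 ∧ v (-|c|) = 0 := by
        rcases abs_choice c with h | h <;> simp [h, v1, v2]
      rw [LC, PW a1 a2 (by linarith), PW a1 a2 (by linarith), eig h a1 a2, v3.1, v3.2]
      simp only [cos_add_pi_div_two, mul_neg, sin_neg, sk, neg_zero, Complex.ofReal_zero]
      ring)
  obtain ⟨ψ, ev, k1, k2⟩ := key
  exact ⟨ψ, ev, fun z => ⟨(k1 z).1, by rw [(k1 z).2]; rfl⟩, k2⟩

theorem main (a : ℚ) (h1 : -1 < a) (h2 : a < 1) :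
    ∃ (ψ : ℕ → L2) (ev : ℕ → ℂ),
      (∀ z, LinearIndependent ℂ (fun j : {j // ev j = z} => ψ j) ∧
        (Submodule.span ℂ (ψ '' {j | ev j = z}) : Set L2) = ⋃ k, Ker a z k) ∧
      (∀ f, ∃! c : ℕ → ℂ, Tendsto (fun N => ∑ j ∈ Finset.range N, c j • ψ j) atTop (𝓝 f)) ∧
      ∀ f, ∃ c : ℕ → ℂ, HasSum (fun j => c j • ψ j) f := by
  have hp := pi_pos
  have g1 : (-1 : ℝ) < a := by exact_mod_cast h1
  have g2 : (a : ℝ) < 1 := by exact_mod_cast h2
  have p1 : 0 < π * (1 + a) / 4 := by have : (0 : ℝ) < 1 + a := by linarith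
                                      positivity
  have p2 : 0 < π * (1 - a) / 4 := by have : (0 : ℝ) < 1 - a := by linarith
                                      positivity
  rcases le_total (0 : ℝ) a with h | h
  · refine core (c := π * (1 + a) / 4) (β := π * (1 - a) / 4) (ρ := (1 + a) / (1 - a)) p2
      (by rw [abs_of_pos p1]; nlinarith) (by rw [abs_of_pos p1]; ring)
      (Or.inl ⟨by ring, by ring⟩) ?_ rfl
    have : (1 : ℝ) - a ≠ 0 := by linarith
    push_cast; field_simp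
  · refine core (c := -(π * (1 - a) / 4)) (β := π * (1 + a) / 4) (ρ := -(1 - a) / (1 + a)) p1
      (by rw [abs_neg, abs_of_pos p2]; nlinarith) (by rw [abs_neg, abs_of_pos p2]; ring)
      (Or.inr ⟨by ring, by ring⟩) ?_ rfl
    have : (1 : ℝ) + a ≠ 0 := by linarith
    push_cast; field_simp

end Pool.Agent.H.MP_1ebdda_an
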